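import Pool.Agent.Y883.GJ.Stm
import Pool.Agent.TH935.LP.L1

set_option autoImplicit false

/-! Bilinear sums over characters: classes of the first variable (project GJ of helper883) -/

namespace Pool.Agent.Y848.GJ.Bil

open Finset
open Pool.Agent.H807R2.Dav (ee dd norm_ee ee_add dd_le)

/-- index of the class -/
noncomputable def ix (δ : ℝ) (m : ℕ) : ℕ := ⌊Real.log m / δ⌋₊

/-- left end of a class -/
noncomputable def gg (δ : ℝ) (i : ℕ) : ℝ := Real.exp (i * δ)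

/-- length of the inner sum -/
noncomputable def YY (δ : ℝ) (N i : ℕ) : ℕ := ⌊(N : ℝ) / gg δ (i + 1)⌋₊

lemma gg_pos (δ : ℝ) (i : ℕ) : 0 < gg δ i := Real.exp_pos _

lemma gg_succ (δ : ℝ) (i : ℕ) : gg δ (i + 1) = gg δ i * Real.exp δ := by
  unfold gg
  rw [← Real.exp_add]
  congr 1
  push_cast
  ring

lemma gg_le {δ : ℝ} (hδ : 0 < δ) {m : ℕ} (hm : 1 ≤ m) : gg δ (ix δ m) ≤ m := by
  unfold gg ix
  have hm0 : (0 : ℝ) < m := by exact_mod_cast hm
  have h1 : ((⌊Real.log m / δ⌋₊ : ℕ) : ℝ) ≤ Real.log m / δ :=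
    Nat.floor_le (div_nonneg (Real.log_nonneg (by exact_mod_cast hm)) hδ.le)
  calc Real.exp (((⌊Real.log m / δ⌋₊ : ℕ) : ℝ) * δ) ≤ Real.exp (Real.log m) :=
        Real.exp_le_exp.mpr ((le_div_iff₀ hδ).mp h1)
    _ = m := Real.exp_log hm0

lemma lt_gg {δ : ℝ} (hδ : 0 < δ) {m : ℕ} (hm : 1 ≤ m) : (m : ℝ) < gg δ (ix δ m + 1) := by
  unfold gg ix
  have hm0 : (0 : ℝ) < m := by exact_mod_cast hm
  have h1 : Real.log m / δ < ((⌊Real.log m / δ⌋₊ : ℕ) : ℝ) + 1 := Nat.lt_floor_add_one _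
  calc (m : ℝ) = Real.exp (Real.log m) := (Real.exp_log hm0).symm
    _ < Real.exp ((((⌊Real.log m / δ⌋₊ + 1 : ℕ)) : ℝ) * δ) := by
        apply Real.exp_lt_exp.mpr
        rw [← div_lt_iff₀ hδ]
        push_cast
        exact h1

lemma exp_neg_ge (δ : ℝ) : 1 - δ ≤ Real.exp (-δ) := by
  have := Real.add_one_le_exp (-δ)
  linarith

lemma sub_gg {δ : ℝ} (hδ : 0 < δ) {m : ℕ} (hm : 1 ≤ m) : (m : ℝ) - gg δ (ix δ m) ≤ m * δ := by
  have h1 := lt_gg hδ hm
  rw [gg_succ] at h1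
  have hm0 : (0 : ℝ) < m := by exact_mod_cast hm
  have h2 : (m : ℝ) * Real.exp (-δ) ≤ gg δ (ix δ m) := by
    have := mul_le_mul_of_nonneg_right h1.le (Real.exp_pos (-δ)).le
    rwa [mul_assoc, ← Real.exp_add, add_neg_cancel, Real.exp_zero, mul_one] at this
  have h3 := mul_le_mul_of_nonneg_left (exp_neg_ge δ) hm0.le
  linarith

/-- the error coefficient -/
noncomputable def cc (δ η : ℝ) (N m k : ℕ) : ℂ :=
  ee (((m * k : ℕ) : ℝ) * η) - if k ≤ YY δ N (ix δ m) then ee (gg δ (ix δ m) * k * η) else 0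

lemma cc_bound {δ η ε : ℝ} {N m k : ℕ} (hδ : 0 < δ) (hm : 1 ≤ m) (hk : m * k ≤ N)
    (hε : 7 * (δ * (N * |η|)) ≤ ε) :
    ‖cc δ η N m k‖ ≤ (if (N : ℝ) * (1 - δ) < ((m * k : ℕ) : ℝ) then 1 else 0) + ε := by
  have hm0 : (0 : ℝ) < m := by exact_mod_cast hm
  have hε0 : 0 ≤ ε := le_trans (by positivity) hε
  unfold cc
  by_cases h : k ≤ YY δ N (ix δ m)
  · rw [if_pos h]
    have e1 : ((m * k : ℕ) : ℝ) * η = gg δ (ix δ m) * k * η + ((m : ℝ) - gg δ (ix δ m)) * k * η := by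
      push_cast; ring
    have e2 : ‖ee (((m * k : ℕ) : ℝ) * η) - ee (gg δ (ix δ m) * k * η)‖ =
        dd (((m : ℝ) - gg δ (ix δ m)) * k * η) := by
      rw [e1, ee_add]
      unfold dd
      rw [show ee (gg δ (ix δ m) * k * η) * ee (((m : ℝ) - gg δ (ix δ m)) * k * η) - ee (gg δ (ix δ m) * k * η) =
        -(ee (gg δ (ix δ m) * k * η) * (1 - ee (((m : ℝ) - gg δ (ix δ m)) * k * η))) by ring, norm_neg,
        norm_mul, norm_ee, one_mul]
    rw [e2]
    refine (dd_le _).trans ?_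
    have h0 : 0 ≤ (m : ℝ) - gg δ (ix δ m) := sub_nonneg.mpr (gg_le hδ hm)
    have h1 : |((m : ℝ) - gg δ (ix δ m)) * k * η| ≤ (m * δ) * k * |η| := by
      rw [abs_mul, abs_mul, abs_of_nonneg h0, abs_of_nonneg (Nat.cast_nonneg k : (0 : ℝ) ≤ k)]
      have := sub_gg hδ hm
      gcongr
    have h2 : ((m : ℝ) * k) ≤ N := by exact_mod_cast hk
    have h3 : (m * δ) * k * |η| ≤ δ * (N * |η|) := by
      have : (m * δ) * k * |η| = δ * ((m * k) * |η|) := by ring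
      rw [this]
      gcongr
    have h4 : 2 * Real.pi ≤ 7 := by
      have := Real.pi_lt_d2
      linarith
    have h5 : 2 * Real.pi * |((m : ℝ) - gg δ (ix δ m)) * k * η| ≤ 7 * (δ * (N * |η|)) := by
      apply mul_le_mul h4 (h1.trans h3) (abs_nonneg _) (by norm_num)
    have h6 : (0 : ℝ) ≤ if (N : ℝ) * (1 - δ) < ((m * k : ℕ) : ℝ) then 1 else 0 := by split_ifs <;> norm_num
    linarith
  · rw [if_neg h, sub_zero, norm_ee]
    have h1 : (N : ℝ) * (1 - δ) < ((m * k : ℕ) : ℝ) := by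
      push Not at h
      have h2 : (N : ℝ) / gg δ (ix δ m + 1) < k := by
        have := Nat.lt_of_floor_lt h
        exact this
      rw [div_lt_iff₀ (gg_pos _ _), gg_succ] at h2
      have h3 := mul_lt_mul_of_pos_right h2 (Real.exp_pos (-δ))
      rw [show (k : ℝ) * (gg δ (ix δ m) * Real.exp δ) * Real.exp (-δ) = k * gg δ (ix δ m) * (Real.exp δ * Real.exp (-δ)) by ring,
        ← Real.exp_add, add_neg_cancel, Real.exp_zero, mul_one] at h3
      have h4 := mul_le_mul_of_nonneg_left (exp_neg_ge δ) (Nat.cast_nonneg N : (0 : ℝ) ≤ N)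
      have h5 := mul_le_mul_of_nonneg_left (gg_le hδ hm) (Nat.cast_nonneg k : (0 : ℝ) ≤ k)
      push_cast
      linarith
    rw [if_pos h1]
    linarith

lemma dirc (X : ℕ) (F : ℕ → ℕ → ℂ) :
    ∑ n ∈ Icc 1 X, ∑ d ∈ n.divisors, F d (n / d) = ∑ d ∈ Icc 1 X, ∑ m ∈ Icc 1 (X / d), F d m := by
  have h := Pool.Agent.TH935.DSB.dir X (fun a b => (F a b).re)
  have h' := Pool.Agent.TH935.DSB.dir X (fun a b => (F a b).im)
  apply Complex.ext
  · simp only [Complex.re_sum]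
    exact h
  · simp only [Complex.im_sum]
    exact h'

variable {q : ℕ}

/-- the first factor -/
noncomputable def AA (δ : ℝ) (a : ℕ → ℂ) (X i : ℕ) (χ : DirichletCharacter ℂ q) : ℂ :=
  ∑ m ∈ Icc 1 X, (if ix δ m = i then a m else 0) * χ (m : ZMod q)

/-- the second factor -/
noncomputable def BB (δ η : ℝ) (b : ℕ → ℂ) (N i : ℕ) (χ : DirichletCharacter ℂ q) : ℂ :=
  ∑ k ∈ Icc 1 (YY δ N i), (b k * ee (gg δ i * k * η)) * χ (k : ZMod q)

/-- the coefficients of the error -/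
noncomputable def ww (δ η : ℝ) (N : ℕ) (a b : ℕ → ℂ) (n : ℕ) : ℂ :=
  ∑ d ∈ n.divisors, a d * b (n / d) * cc δ η N d (n / d)

lemma YY_le {δ : ℝ} (hδ : 0 < δ) {N m : ℕ} (hm : 1 ≤ m) : YY δ N (ix δ m) ≤ N / m := by
  unfold YY
  rw [Nat.le_div_iff_mul_le hm]
  have hm0 : (0 : ℝ) < m := by exact_mod_cast hm
  have h1 : ((⌊(N : ℝ) / gg δ (ix δ m + 1)⌋₊ : ℕ) : ℝ) ≤ (N : ℝ) / gg δ (ix δ m + 1) :=
    Nat.floor_le (div_nonneg (Nat.cast_nonneg _) (gg_pos _ _).le)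
  have h2 : (N : ℝ) / gg δ (ix δ m + 1) ≤ N / m :=
    div_le_div_of_nonneg_left (Nat.cast_nonneg _) hm0 (lt_gg hδ hm).le
  have h3 := h1.trans h2
  rw [le_div_iff₀ hm0] at h3
  exact_mod_cast h3

theorem decomp {δ : ℝ} (hδ : 0 < δ) (η : ℝ) (N : ℕ) (a b : ℕ → ℂ) (I : Finset ℕ) (X : ℕ → ℕ)
    (hI : ∀ m ∈ Icc 1 N, a m ≠ 0 → ix δ m ∈ I ∧ m ≤ X (ix δ m)) (hX : ∀ i ∈ I, X i ≤ N)
    (χ : DirichletCharacter ℂ q) :
    ∑ m ∈ Icc 1 N, ∑ k ∈ Icc 1 (N / m), (a m * b k) * (χ ((m * k : ℕ) : ZMod q) * ee (((m * k : ℕ) : ℝ) * η)) =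
      ∑ i ∈ I, AA δ a (X i) i χ * BB δ η b N i χ + ∑ n ∈ Icc 1 N, ww δ η N a b n * χ (n : ZMod q) := by
  have hw : ∑ n ∈ Icc 1 N, ww δ η N a b n * χ (n : ZMod q) =
      ∑ m ∈ Icc 1 N, ∑ k ∈ Icc 1 (N / m), a m * b k * cc δ η N m k * χ ((m * k : ℕ) : ZMod q) := by
    rw [← dirc N (fun m k => a m * b k * cc δ η N m k * χ ((m * k : ℕ) : ZMod q))]
    apply sum_congr rfl
    intro n hn
    unfold ww
    rw [sum_mul]
    apply sum_congr rfl
    intro d hd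
    rw [Nat.mul_div_cancel' (Nat.dvd_of_mem_divisors hd)]
  have hAB : ∑ i ∈ I, AA δ a (X i) i χ * BB δ η b N i χ =
      ∑ m ∈ Icc 1 N, a m * χ (m : ZMod q) * BB δ η b N (ix δ m) χ := by
    have e1 : ∀ i ∈ I, AA δ a (X i) i χ * BB δ η b N i χ =
        ∑ m ∈ Icc 1 N, if ix δ m = i then a m * χ (m : ZMod q) * BB δ η b N (ix δ m) χ else 0 := by
      intro i hi
      unfold AA
      rw [sum_mul]
      have e2 : ∑ m ∈ Icc 1 (X i), (if ix δ m = i then a m else 0) * χ (m : ZMod q) * BB δ η b N i χ =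
          ∑ m ∈ Icc 1 (X i), if ix δ m = i then a m * χ (m : ZMod q) * BB δ η b N (ix δ m) χ else 0 := by
        apply sum_congr rfl
        intro m _
        by_cases h : ix δ m = i
        · rw [if_pos h, if_pos h, h]
        · rw [if_neg h, if_neg h, zero_mul, zero_mul]
      rw [e2]
      apply sum_subset (Icc_subset_Icc_right (hX i hi))
      intro m hm hm'
      by_cases h : ix δ m = i
      · rw [if_pos h]
        by_cases ha : a m = 0
        · rw [ha]; ring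
        · exfalso
          apply hm'
          rw [mem_Icc] at hm ⊢
          have := (hI m (mem_Icc.mpr hm) ha).2
          rw [h] at this
          exact ⟨hm.1, this⟩
      · rw [if_neg h]
    rw [sum_congr rfl e1, sum_comm]
    apply sum_congr rfl
    intro m hm
    by_cases ha : a m = 0
    · rw [ha]
      simp
    · rw [sum_ite_eq, if_pos (hI m hm ha).1]
  rw [hw, hAB, ← sum_add_distrib]
  apply sum_congr rfl
  intro m hm
  rw [mem_Icc] at hm
  have hB : BB δ η b N (ix δ m) χ = ∑ k ∈ Icc 1 (N / m), if k ≤ YY δ N (ix δ m) then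
      (b k * ee (gg δ (ix δ m) * k * η)) * χ (k : ZMod q) else 0 := by
    unfold BB
    rw [← sum_filter]
    apply sum_congr _ fun _ _ => rfl
    ext k
    rw [mem_filter, mem_Icc, mem_Icc]
    have := YY_le hδ (N := N) hm.1
    constructor
    · intro h; exact ⟨⟨h.1, h.2.trans this⟩, h.2⟩
    · intro h; exact ⟨h.1.1, h.2⟩
  rw [hB, mul_sum, ← sum_add_distrib]
  apply sum_congr rfl
  intro k hk
  unfold cc
  have hχ : χ ((m * k : ℕ) : ZMod q) = χ (m : ZMod q) * χ (k : ZMod q) := by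
    rw [Nat.cast_mul, map_mul]
  rw [hχ]
  split_ifs <;> ring

end Pool.Agent.Y848.GJ.Bil
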