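import Pool.Agent.Y848.GJ.Bil0

set_option autoImplicit false

/-! Bilinear sums over characters: the error and the main part (project GJ of helper883) -/

namespace Pool.Agent.Y848.GJ.Bil

open Finset
open Pool.Agent.H807R2.Dav (ee dd norm_ee ee_add dd_le)
open Pool.Agent.Y883.GJ (ev L2Stm CountStm BilMajStm)
open Pool.Agent.TH935.LD (tau_pow_sum)

/-- the number of divisors -/
noncomputable def tau (n : ℕ) : ℝ := (n.divisors.card : ℝ)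

lemma tau_nonneg (n : ℕ) : 0 ≤ tau n := Nat.cast_nonneg _

lemma tau_dvd {d n : ℕ} (hn : n ≠ 0) (h : d ∣ n) : tau d ≤ tau n := by
  unfold tau
  exact_mod_cast card_le_card (Nat.divisors_subset_of_dvd hn h)

lemma ww_bound {δ η ε L : ℝ} {N : ℕ} (hδ : 0 < δ) (hL : 0 ≤ L) (hε : 7 * (δ * (N * |η|)) ≤ ε) {a b : ℕ → ℂ}
    (ha : ∀ m ∈ Icc 1 N, ‖a m‖ ≤ L * tau m) (hb : ∀ m ∈ Icc 1 N, ‖b m‖ ≤ L * tau m) {n : ℕ} (hn : n ∈ Icc 1 N) :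
    ‖ww δ η N a b n‖ ^ 2 ≤ L ^ 4 * (tau n ^ 6 * (2 * (if (N : ℝ) * (1 - δ) < n then 1 else 0) + 2 * ε ^ 2)) := by
  have hε0 : 0 ≤ ε := le_trans (by positivity) hε
  have hn' := mem_Icc.mp hn
  set o : ℝ := if (N : ℝ) * (1 - δ) < n then 1 else 0 with ho
  have ho0 : 0 ≤ o := by rw [ho]; split_ifs <;> norm_num
  have hoo : o ^ 2 = o := by rw [ho]; split_ifs <;> norm_num
  have h1 : ‖ww δ η N a b n‖ ≤ ∑ d ∈ n.divisors, (L * tau n) * (L * tau n) * (o + ε) := by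
    unfold ww
    refine (norm_sum_le _ _).trans (sum_le_sum fun d hd => ?_)
    have hdn := Nat.dvd_of_mem_divisors hd
    have hd0 : 1 ≤ d := Nat.pos_of_dvd_of_pos hdn hn'.1
    have hk0 : 1 ≤ n / d := Nat.div_pos (Nat.le_of_dvd hn'.1 hdn) hd0
    have hdle : d ≤ N := (Nat.le_of_dvd hn'.1 hdn).trans hn'.2
    have hkle : n / d ≤ N := (Nat.div_le_self _ _).trans hn'.2
    have hmk : d * (n / d) = n := Nat.mul_div_cancel' hdn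
    rw [norm_mul, norm_mul]
    have e1 : ‖a d‖ ≤ L * tau n := (ha d (mem_Icc.mpr ⟨hd0, hdle⟩)).trans
      (mul_le_mul_of_nonneg_left (tau_dvd (by omega) hdn) hL)
    have e2 : ‖b (n / d)‖ ≤ L * tau n := (hb _ (mem_Icc.mpr ⟨hk0, hkle⟩)).trans
      (mul_le_mul_of_nonneg_left (tau_dvd (by omega) (Nat.div_dvd_of_dvd hdn)) hL)
    have e3 := cc_bound (η := η) (N := N) (k := n / d) hδ hd0 (by rw [hmk]; exact hn'.2) hε
    rw [hmk] at e3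
    have hLt : 0 ≤ L * tau n := mul_nonneg hL (tau_nonneg n)
    exact mul_le_mul (mul_le_mul e1 e2 (norm_nonneg _) hLt) e3 (norm_nonneg _) (mul_nonneg hLt hLt)
  rw [sum_const, nsmul_eq_mul] at h1
  have h2 : ‖ww δ η N a b n‖ ≤ L ^ 2 * tau n ^ 3 * (o + ε) := by
    refine h1.trans (le_of_eq ?_)
    unfold tau
    ring
  have h3 : ‖ww δ η N a b n‖ ^ 2 ≤ (L ^ 2 * tau n ^ 3 * (o + ε)) ^ 2 := pow_le_pow_left₀ (norm_nonneg _) h2 2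
  refine h3.trans ?_
  have h4 : (o + ε) ^ 2 ≤ 2 * o + 2 * ε ^ 2 := by
    nlinarith [sq_nonneg (o - ε)]
  have h5 : (L ^ 2 * tau n ^ 3 * (o + ε)) ^ 2 = L ^ 4 * (tau n ^ 6 * (o + ε) ^ 2) := by ring
  rw [h5]
  have := tau_nonneg n
  gcongr

lemma tail_tau {N : ℕ} {t P : ℝ} (ht : 0 ≤ t) (hNt : 1 ≤ N * t ^ 2) (hP : 1 + Real.log N ≤ P) :
    ∑ n ∈ (Icc 1 N).filter (fun n : ℕ => (N : ℝ) * (1 - t ^ 2) < n), tau n ^ 6 ≤ 2 * (N * t * P ^ 2048) := by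
  have hlog := Real.log_natCast_nonneg N
  have hP0 : 0 ≤ P := by linarith
  set F := (Icc 1 N).filter (fun n : ℕ => (N : ℝ) * (1 - t ^ 2) < n) with hF
  have hcard : (F.card : ℝ) ≤ 2 * (N * t ^ 2) := by
    have h1 : F ⊆ Ioc ⌊(N : ℝ) * (1 - t ^ 2)⌋₊ N := by
      intro n hn
      rw [hF, mem_filter, mem_Icc] at hn
      rw [mem_Ioc]
      refine ⟨?_, hn.1.2⟩
      by_cases h0 : 0 ≤ (N : ℝ) * (1 - t ^ 2)
      · exact (Nat.floor_lt h0).mpr hn.2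
      · rw [Nat.floor_of_nonpos (not_le.mp h0).le]; omega
    have h2 := card_le_card h1
    rw [Nat.card_Ioc] at h2
    have h3 : (N : ℝ) * (1 - t ^ 2) < ⌊(N : ℝ) * (1 - t ^ 2)⌋₊ + 1 := Nat.lt_floor_add_one _
    have h4 : (F.card : ℝ) ≤ ((N - ⌊(N : ℝ) * (1 - t ^ 2)⌋₊ : ℕ) : ℝ) := by exact_mod_cast h2
    have h5 : ((N - ⌊(N : ℝ) * (1 - t ^ 2)⌋₊ : ℕ) : ℝ) ≤ max ((N : ℝ) - ⌊(N : ℝ) * (1 - t ^ 2)⌋₊) 0 := by
      by_cases h : ⌊(N : ℝ) * (1 - t ^ 2)⌋₊ ≤ N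
      · rw [Nat.cast_sub h]; exact le_max_left _ _
      · rw [Nat.sub_eq_zero_of_le (by omega)]; simp
    refine (h4.trans h5).trans (max_le ?_ (by linarith))
    nlinarith
  have hcs := Finset.sum_mul_sq_le_sq_mul_sq F (fun _ => (1 : ℝ)) (fun n => tau n ^ 6)
  simp only [one_mul, one_pow, sum_const, nsmul_eq_mul, mul_one] at hcs
  have h12 : ∑ n ∈ F, (tau n ^ 6) ^ 2 ≤ N * P ^ 4096 := by
    have e1 : ∑ n ∈ F, (tau n ^ 6) ^ 2 ≤ ∑ n ∈ Icc 1 N, (tau n) ^ 12 := by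
      refine (sum_le_sum_of_subset_of_nonneg (filter_subset _ _) (fun n _ _ => by positivity)).trans (le_of_eq ?_)
      apply sum_congr rfl
      intro n _
      ring
    refine e1.trans ((tau_pow_sum 12 N).trans ?_)
    norm_num
    gcongr
  have h6 : (∑ n ∈ F, tau n ^ 6) ^ 2 ≤ (2 * (N * t * P ^ 2048)) ^ 2 := by
    refine hcs.trans ?_
    have hs0 : 0 ≤ ∑ n ∈ F, (tau n ^ 6) ^ 2 := sum_nonneg fun n _ => by positivity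
    calc (F.card : ℝ) * ∑ n ∈ F, (tau n ^ 6) ^ 2 ≤ (2 * (N * t ^ 2)) * (N * P ^ 4096) :=
          mul_le_mul hcard h12 hs0 (by positivity)
      _ ≤ (2 * (N * t * P ^ 2048)) ^ 2 := by
          have e : (2 * ((N : ℝ) * t * P ^ 2048)) ^ 2 = 2 * ((2 * (N * t ^ 2)) * (N * P ^ 4096)) := by ring
          rw [e]
          have : 0 ≤ (2 * ((N : ℝ) * t ^ 2)) * (N * P ^ 4096) := by positivity
          linarith
  exact (le_abs_self _).trans (abs_le_of_sq_le_sq h6 (by positivity))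

lemma err_sum {δ η ε L P : ℝ} {t : ℝ} {N : ℕ} (hδ : 0 < δ) (hδt : δ = t ^ 2) (ht : 0 ≤ t) (hNt : 1 ≤ N * t ^ 2) (hL : 0 ≤ L)
    (hP : 1 + Real.log N ≤ P) (hε : 7 * (δ * (N * |η|)) ≤ ε) {a b : ℕ → ℂ}
    (ha : ∀ m ∈ Icc 1 N, ‖a m‖ ≤ L * tau m) (hb : ∀ m ∈ Icc 1 N, ‖b m‖ ≤ L * tau m) :
    ∑ n ∈ Icc 1 N, ‖ww δ η N a b n‖ ^ 2 ≤ L ^ 4 * (4 * (N * t * P ^ 2048) + 2 * ε ^ 2 * (N * P ^ 64)) := by
  have hlog := Real.log_natCast_nonneg N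
  have hP0 : 0 ≤ P := by linarith
  refine (sum_le_sum fun n hn => ww_bound hδ hL hε ha hb hn).trans ?_
  rw [← mul_sum]
  apply mul_le_mul_of_nonneg_left _ (by positivity)
  have e1 : ∑ n ∈ Icc 1 N, (tau n ^ 6 * (2 * (if (N : ℝ) * (1 - δ) < n then 1 else 0) + 2 * ε ^ 2)) =
      2 * ∑ n ∈ (Icc 1 N).filter (fun n : ℕ => (N : ℝ) * (1 - t ^ 2) < n), tau n ^ 6 +
        2 * ε ^ 2 * ∑ n ∈ Icc 1 N, tau n ^ 6 := by
    rw [sum_filter, mul_sum, mul_sum, ← sum_add_distrib]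
    apply sum_congr rfl
    intro n _
    rw [hδt]
    split_ifs <;> ring
  rw [e1]
  have e2 := tail_tau ht hNt hP
  have e3 : ∑ n ∈ Icc 1 N, tau n ^ 6 ≤ N * P ^ 64 := by
    refine (tau_pow_sum 6 N).trans ?_
    norm_num
    gcongr
  have e4 := mul_le_mul_of_nonneg_left e3 (by positivity : (0 : ℝ) ≤ 2 * ε ^ 2)
  linarith

lemma gg_ge_one {δ : ℝ} (hδ : 0 < δ) (i : ℕ) : 1 ≤ gg δ i := by
  unfold gg
  exact Real.one_le_exp (by positivity)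

lemma YY_cast_le {δ : ℝ} (hδ : 0 < δ) (N i : ℕ) : (YY δ N i : ℝ) ≤ N / gg δ i := by
  unfold YY
  have h1 : ((⌊(N : ℝ) / gg δ (i + 1)⌋₊ : ℕ) : ℝ) ≤ (N : ℝ) / gg δ (i + 1) :=
    Nat.floor_le (div_nonneg (Nat.cast_nonneg _) (gg_pos _ _).le)
  refine h1.trans (div_le_div_of_nonneg_left (Nat.cast_nonneg _) (gg_pos _ _) ?_)
  rw [gg_succ]
  exact le_mul_of_one_le_right (gg_pos _ _).le (Real.one_le_exp hδ.le)

lemma YY_le_N {δ : ℝ} (hδ : 0 < δ) (N i : ℕ) : YY δ N i ≤ N := by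
  have h := (YY_cast_le hδ N i).trans (div_le_self (Nat.cast_nonneg _) (gg_ge_one hδ i))
  exact_mod_cast h

lemma main_sum (h1 : L2Stm) {q : ℕ} [NeZero q] {δ η L P s : ℝ} {N : ℕ} (hδ : 0 < δ) (hL : 0 ≤ L) (hs : 0 ≤ s)
    (hP : 1 + Real.log N ≤ P) {a b : ℕ → ℂ} (hb : ∀ m ∈ Icc 1 N, ‖b m‖ ≤ L * tau m) (I : Finset ℕ) (X : ℕ → ℕ)
    (hqI : ∀ i ∈ I, (q : ℝ) ≤ N / gg δ i) (S : Finset (DirichletCharacter ℂ q))
    (hS : ∀ χ ∈ S, ∀ i ∈ I, ‖AA δ a (X i) i χ‖ ≤ gg δ i * s) :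
    ∑ χ ∈ S, ‖∑ i ∈ I, AA δ a (X i) i χ * BB δ η b N i χ‖ ^ 2 ≤
      (I.card : ℝ) ^ 2 * (2 * s ^ 2 * L ^ 2 * P ^ 4 * N ^ 2) := by
  have hlog := Real.log_natCast_nonneg N
  have hP0 : 0 ≤ P := by linarith
  have e1 : ∀ χ ∈ S, ‖∑ i ∈ I, AA δ a (X i) i χ * BB δ η b N i χ‖ ^ 2 ≤
      (I.card : ℝ) * ∑ i ∈ I, (gg δ i * s) ^ 2 * ‖BB δ η b N i χ‖ ^ 2 := by
    intro χ hχ
    have f1 : ‖∑ i ∈ I, AA δ a (X i) i χ * BB δ η b N i χ‖ ≤ ∑ i ∈ I, (gg δ i * s) * ‖BB δ η b N i χ‖ := by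
      refine (norm_sum_le _ _).trans (sum_le_sum fun i hi => ?_)
      rw [norm_mul]
      exact mul_le_mul_of_nonneg_right (hS χ hχ i hi) (norm_nonneg _)
    have f2 := Finset.sum_mul_sq_le_sq_mul_sq I (fun _ => (1 : ℝ)) (fun i => (gg δ i * s) * ‖BB δ η b N i χ‖)
    simp only [one_mul, one_pow, sum_const, nsmul_eq_mul, mul_one, mul_pow _ ‖_‖] at f2
    exact (pow_le_pow_left₀ (norm_nonneg _) f1 2).trans f2
  refine (sum_le_sum e1).trans ?_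
  rw [← mul_sum, sum_comm]
  have e2 : ∀ i ∈ I, ∑ χ ∈ S, (gg δ i * s) ^ 2 * ‖BB δ η b N i χ‖ ^ 2 ≤ 2 * s ^ 2 * L ^ 2 * P ^ 4 * N ^ 2 := by
    intro i hi
    rw [← mul_sum]
    have g0 := gg_pos δ i
    have f1 : ∑ χ ∈ S, ‖BB δ η b N i χ‖ ^ 2 ≤
        ((YY δ N i : ℝ) + q) * ∑ k ∈ Icc 1 (YY δ N i), ‖b k * ee (gg δ i * k * η)‖ ^ 2 := by
      refine le_trans ?_ (h1 q (YY δ N i) (fun k => b k * ee (gg δ i * k * η))).1
      exact sum_le_sum_of_subset_of_nonneg (subset_univ _) (fun _ _ _ => by positivity)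
    have f2 : ∑ k ∈ Icc 1 (YY δ N i), ‖b k * ee (gg δ i * k * η)‖ ^ 2 ≤ L ^ 2 * ((YY δ N i : ℝ) * P ^ 4) := by
      have g1 : ∀ k ∈ Icc 1 (YY δ N i), ‖b k * ee (gg δ i * k * η)‖ ^ 2 ≤ L ^ 2 * tau k ^ 2 := by
        intro k hk
        rw [mem_Icc] at hk
        rw [norm_mul, norm_ee, mul_one, ← mul_pow]
        exact pow_le_pow_left₀ (norm_nonneg _) (hb k (mem_Icc.mpr ⟨hk.1, hk.2.trans (YY_le_N hδ N i)⟩)) 2
      refine (sum_le_sum g1).trans ?_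
      rw [← mul_sum]
      apply mul_le_mul_of_nonneg_left _ (by positivity)
      refine (tau_pow_sum 2 (YY δ N i)).trans ?_
      norm_num
      rcases Nat.eq_zero_or_pos (YY δ N i) with h | h
      · rw [h]; simp
      · have h2 : Real.log (YY δ N i) ≤ Real.log N := by
          apply Real.log_le_log (by exact_mod_cast h)
          exact_mod_cast YY_le_N hδ N i
        have h3 : 0 ≤ Real.log (YY δ N i) := Real.log_natCast_nonneg _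
        gcongr
        linarith
    have f3 : ((YY δ N i : ℝ) + q) * (YY δ N i : ℝ) ≤ 2 * (N / gg δ i) ^ 2 := by
      have g1 := YY_cast_le hδ N i
      have g2 := hqI i hi
      have g3 : (0 : ℝ) ≤ YY δ N i := Nat.cast_nonneg _
      have g4 : (0 : ℝ) ≤ q := Nat.cast_nonneg _
      nlinarith
    have f4 : ∑ χ ∈ S, ‖BB δ η b N i χ‖ ^ 2 ≤ L ^ 2 * P ^ 4 * (2 * (N / gg δ i) ^ 2) := by
      have g5 : (0 : ℝ) ≤ (YY δ N i : ℝ) + q := by positivity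
      refine f1.trans ((mul_le_mul_of_nonneg_left f2 g5).trans ?_)
      have : ((YY δ N i : ℝ) + q) * (L ^ 2 * ((YY δ N i : ℝ) * P ^ 4)) =
        L ^ 2 * P ^ 4 * (((YY δ N i : ℝ) + q) * (YY δ N i : ℝ)) := by ring
      rw [this]
      exact mul_le_mul_of_nonneg_left f3 (by positivity)
    refine (mul_le_mul_of_nonneg_left f4 (by positivity)).trans (le_of_eq ?_)
    field_simp
  refine (mul_le_mul_of_nonneg_left (sum_le_sum e2) (Nat.cast_nonneg _)).trans (le_of_eq ?_)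
  rw [sum_const, nsmul_eq_mul]
  ring

lemma norm_ev_sum {q : ℕ} [NeZero q] (S : Finset (DirichletCharacter ℂ q)) (η : ℝ) (N : ℕ) (a b : ℕ → ℂ) :
    ‖∑ m ∈ Icc 1 N, ∑ k ∈ Icc 1 (N / m), (a m * b k) • ev S η (m * k)‖ ^ 2 =
      ∑ χ ∈ S, ‖∑ m ∈ Icc 1 N, ∑ k ∈ Icc 1 (N / m),
        (a m * b k) * (χ ((m * k : ℕ) : ZMod q) * ee (((m * k : ℕ) : ℝ) * η))‖ ^ 2 := by
  classical
  rw [EuclideanSpace.norm_sq_eq]
  have h : ∀ χ : DirichletCharacter ℂ q,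
      ‖(∑ m ∈ Icc 1 N, ∑ k ∈ Icc 1 (N / m), (a m * b k) • ev S η (m * k)).ofLp χ‖ ^ 2 =
      if χ ∈ S then ‖∑ m ∈ Icc 1 N, ∑ k ∈ Icc 1 (N / m),
        (a m * b k) * (χ ((m * k : ℕ) : ZMod q) * ee (((m * k : ℕ) : ℝ) * η))‖ ^ 2 else 0 := by
    intro χ
    have e : (∑ m ∈ Icc 1 N, ∑ k ∈ Icc 1 (N / m), (a m * b k) • ev S η (m * k)).ofLp χ =
        ∑ m ∈ Icc 1 N, ∑ k ∈ Icc 1 (N / m), (a m * b k) *
          (if χ ∈ S then χ ((m * k : ℕ) : ZMod q) * ee (((m * k : ℕ) : ℝ) * η) else 0) := by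
      simp only [WithLp.ofLp_sum, Finset.sum_apply, WithLp.ofLp_smul, Pi.smul_apply, smul_eq_mul, ev]
    rw [e]
    split_ifs with hS
    · rfl
    · simp
  rw [sum_congr rfl fun χ _ => h χ, sum_ite_mem, univ_inter]

theorem combine (h1 : L2Stm) {q : ℕ} [NeZero q] {δ η ε L P s t : ℝ} {N : ℕ} (hδ : 0 < δ) (hδt : δ = t ^ 2)
    (ht : 0 ≤ t) (hNt : 1 ≤ N * t ^ 2) (hL : 0 ≤ L) (hs : 0 ≤ s) (hP : 1 + Real.log N ≤ P)
    (hε : 7 * (δ * (N * |η|)) ≤ ε) (hqN : (q : ℝ) ≤ N) {a b : ℕ → ℂ}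
    (ha : ∀ m ∈ Icc 1 N, ‖a m‖ ≤ L * tau m) (hb : ∀ m ∈ Icc 1 N, ‖b m‖ ≤ L * tau m) (I : Finset ℕ) (X : ℕ → ℕ)
    (hI : ∀ m ∈ Icc 1 N, a m ≠ 0 → ix δ m ∈ I ∧ m ≤ X (ix δ m)) (hX : ∀ i ∈ I, X i ≤ N)
    (hqI : ∀ i ∈ I, (q : ℝ) ≤ N / gg δ i) (S : Finset (DirichletCharacter ℂ q))
    (hS : ∀ χ ∈ S, ∀ i ∈ I, ‖AA δ a (X i) i χ‖ ≤ gg δ i * s) :
    ‖∑ m ∈ Icc 1 N, ∑ k ∈ Icc 1 (N / m), (a m * b k) • ev S η (m * k)‖ ^ 2 ≤
      2 * ((I.card : ℝ) ^ 2 * (2 * s ^ 2 * L ^ 2 * P ^ 4 * N ^ 2)) +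
        4 * N * (L ^ 4 * (4 * (N * t * P ^ 2048) + 2 * ε ^ 2 * (N * P ^ 64))) := by
  rw [norm_ev_sum]
  have e1 : ∀ χ ∈ S, ‖∑ m ∈ Icc 1 N, ∑ k ∈ Icc 1 (N / m),
        (a m * b k) * (χ ((m * k : ℕ) : ZMod q) * ee (((m * k : ℕ) : ℝ) * η))‖ ^ 2 ≤
      2 * ‖∑ i ∈ I, AA δ a (X i) i χ * BB δ η b N i χ‖ ^ 2 +
        2 * ‖∑ n ∈ Icc 1 N, ww δ η N a b n * χ (n : ZMod q)‖ ^ 2 := by
    intro χ _
    rw [decomp hδ η N a b I X hI hX χ]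
    have f := norm_add_le (∑ i ∈ I, AA δ a (X i) i χ * BB δ η b N i χ) (∑ n ∈ Icc 1 N, ww δ η N a b n * χ (n : ZMod q))
    have f2 := pow_le_pow_left₀ (norm_nonneg _) f 2
    nlinarith [sq_nonneg (‖∑ i ∈ I, AA δ a (X i) i χ * BB δ η b N i χ‖ - ‖∑ n ∈ Icc 1 N, ww δ η N a b n * χ (n : ZMod q)‖)]
  refine (sum_le_sum e1).trans ?_
  rw [sum_add_distrib, ← mul_sum, ← mul_sum]
  have e2 := main_sum h1 (η := η) hδ hL hs hP hb I X hqI S hS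
  have e3 : ∑ χ ∈ S, ‖∑ n ∈ Icc 1 N, ww δ η N a b n * χ (n : ZMod q)‖ ^ 2 ≤
      (2 * N) * (L ^ 4 * (4 * (N * t * P ^ 2048) + 2 * ε ^ 2 * (N * P ^ 64))) := by
    have f1 : ∑ χ ∈ S, ‖∑ n ∈ Icc 1 N, ww δ η N a b n * χ (n : ZMod q)‖ ^ 2 ≤
        ((N : ℝ) + q) * ∑ n ∈ Icc 1 N, ‖ww δ η N a b n‖ ^ 2 := by
      refine le_trans ?_ (h1 q N (ww δ η N a b)).1
      exact sum_le_sum_of_subset_of_nonneg (subset_univ _) (fun _ _ _ => by positivity)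
    refine f1.trans ?_
    apply mul_le_mul (by linarith) (err_sum hδ hδt ht hNt hL hP hε ha hb)
      (sum_nonneg fun _ _ => by positivity) (by positivity)
  linarith

end Pool.Agent.Y848.GJ.Bil
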