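import Pool.Agent.Y848.GJ.Bil1

set_option autoImplicit false

/-! Bilinear sums over characters on the major arcs (project GJ of helper883) -/

namespace Pool.Agent.Y848.GJ.Bil

open Finset
open Pool.Agent.H807R2.Dav (ee)
open Pool.Agent.Y883.GJ (ev L2Stm CountStm BilMajStm)
open Pool.Agent.TH935.LD (ev_L' log_pow_small)

lemma final_num {L N t s P I ε : ℝ} {A C κ K : ℕ} (hL : 100 ≤ L) (hN : 0 ≤ N) (ht : t * L ^ κ = 1)
    (hs : s * L ^ K = 1) (ht0 : 0 ≤ t) (hs0 : 0 ≤ s) (hκ : κ = A + 2 * C + 4102) (hK : K = 2 * κ + 8 + A)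
    (hP0 : 0 ≤ P) (hP : P ≤ L ^ 2) (hI0 : 0 ≤ I) (hI : I ≤ L ^ (2 * κ + 2)) (hε : ε = 7 * (t ^ 2 * L ^ C)) :
    2 * (I ^ 2 * (2 * s ^ 2 * L ^ 2 * P ^ 4 * N ^ 2)) +
      4 * N * (L ^ 4 * (4 * (N * t * P ^ 2048) + 2 * ε ^ 2 * (N * P ^ 64))) ≤ N ^ 2 / L ^ A := by
  have hL0 : 0 < L := by linarith
  have hL1 : 1 ≤ L := by linarith
  have ht1 : t ≤ 1 := by
    have h := one_le_pow₀ hL1 (n := κ)
    nlinarith
  rw [le_div_iff₀ (by positivity)]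
  have hL2 : 10000 ≤ L ^ 2 := by nlinarith
  -- first term
  have T1 : I ^ 2 * (2 * s ^ 2 * L ^ 2 * P ^ 4 * N ^ 2) ≤ 2 * N ^ 2 * (s ^ 2 * L ^ (4 * κ + 14)) := by
    calc I ^ 2 * (2 * s ^ 2 * L ^ 2 * P ^ 4 * N ^ 2) ≤
        (L ^ (2 * κ + 2)) ^ 2 * (2 * s ^ 2 * L ^ 2 * (L ^ 2) ^ 4 * N ^ 2) := by gcongr
      _ = 2 * N ^ 2 * (s ^ 2 * L ^ (4 * κ + 14)) := by ring
  have T1' : s ^ 2 * L ^ (4 * κ + 14) * L ^ A * 10000 ≤ 1 := by
    have e1 : (s * L ^ K) ^ 2 = s ^ 2 * L ^ (4 * κ + 14) * L ^ A * (L ^ 2 * L ^ A) := by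
      rw [hK]; ring
    rw [hs, one_pow] at e1
    rw [e1]
    have e2 : 1 ≤ L ^ A := one_le_pow₀ hL1
    have e3 : 10000 ≤ L ^ 2 * L ^ A := by nlinarith
    exact mul_le_mul_of_nonneg_left e3 (by positivity)
  -- second term
  have T2 : L ^ 4 * (4 * (N * t * P ^ 2048) + 2 * ε ^ 2 * (N * P ^ 64)) ≤ 102 * N * (t * L ^ (2 * C + 4100)) := by
    have f1 : 4 * (N * t * P ^ 2048) ≤ 4 * N * (t * L ^ (2 * C + 4096)) := by
      have g1 : P ^ 2048 ≤ L ^ (2 * C + 4096) := by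
        calc P ^ 2048 ≤ (L ^ 2) ^ 2048 := pow_le_pow_left₀ hP0 hP _
          _ = L ^ 4096 := by rw [← pow_mul]
          _ ≤ L ^ (2 * C + 4096) := pow_le_pow_right₀ hL1 (by omega)
      calc 4 * (N * t * P ^ 2048) = 4 * N * (t * P ^ 2048) := by ring
        _ ≤ 4 * N * (t * L ^ (2 * C + 4096)) := by gcongr
    have f2 : 2 * ε ^ 2 * (N * P ^ 64) ≤ 98 * N * (t * L ^ (2 * C + 4096)) := by
      have g1 : L ^ (2 * C) * P ^ 64 ≤ L ^ (2 * C + 4096) := by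
        calc L ^ (2 * C) * P ^ 64 ≤ L ^ (2 * C) * (L ^ 2) ^ 64 := by gcongr
          _ = L ^ (2 * C + 128) := by rw [← pow_mul, ← pow_add]
          _ ≤ L ^ (2 * C + 4096) := pow_le_pow_right₀ hL1 (by omega)
      have g2 : t ^ 4 ≤ t := by
        calc t ^ 4 = t * t ^ 3 := by ring
          _ ≤ t * 1 := by gcongr; exact pow_le_one₀ ht0 ht1
          _ = t := mul_one t
      calc 2 * ε ^ 2 * (N * P ^ 64) = 98 * N * (t ^ 4 * (L ^ (2 * C) * P ^ 64)) := by rw [hε]; ring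
        _ ≤ 98 * N * (t * L ^ (2 * C + 4096)) :=
            mul_le_mul_of_nonneg_left (mul_le_mul g2 g1
              (mul_nonneg (pow_nonneg hL0.le _) (pow_nonneg hP0 _)) ht0) (mul_nonneg (by norm_num) hN)
    calc L ^ 4 * (4 * (N * t * P ^ 2048) + 2 * ε ^ 2 * (N * P ^ 64)) ≤
        L ^ 4 * (4 * N * (t * L ^ (2 * C + 4096)) + 98 * N * (t * L ^ (2 * C + 4096))) := by
          apply mul_le_mul_of_nonneg_left (add_le_add f1 f2) (by positivity)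
      _ = 102 * N * (t * L ^ (2 * C + 4100)) := by ring
  have T2' : t * L ^ (2 * C + 4100) * L ^ A * 10000 ≤ 1 := by
    have e1 : t * L ^ κ = t * L ^ (2 * C + 4100) * L ^ A * L ^ 2 := by
      rw [hκ]; ring
    rw [ht] at e1
    rw [e1]
    exact mul_le_mul_of_nonneg_left hL2 (by positivity)
  have hLA : 0 ≤ L ^ A := by positivity
  have hN2 : 0 ≤ N ^ 2 := by positivity
  calc (2 * (I ^ 2 * (2 * s ^ 2 * L ^ 2 * P ^ 4 * N ^ 2)) +
      4 * N * (L ^ 4 * (4 * (N * t * P ^ 2048) + 2 * ε ^ 2 * (N * P ^ 64)))) * L ^ A ≤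
      (2 * (2 * N ^ 2 * (s ^ 2 * L ^ (4 * κ + 14))) + 4 * N * (102 * N * (t * L ^ (2 * C + 4100)))) * L ^ A := by
        gcongr
    _ = N ^ 2 * (4 * (s ^ 2 * L ^ (4 * κ + 14) * L ^ A) + 408 * (t * L ^ (2 * C + 4100) * L ^ A)) := by ring
    _ ≤ N ^ 2 * 1 := by
        apply mul_le_mul_of_nonneg_left _ hN2
        linarith
    _ = N ^ 2 := mul_one _

lemma exp_le_two {δ : ℝ} (hδ : δ ≤ 1 / 2) : Real.exp δ ≤ 2 := by
  have h1 := exp_neg_ge δ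
  have h2 : Real.exp δ * Real.exp (-δ) = 1 := by rw [← Real.exp_add, add_neg_cancel, Real.exp_zero]
  have h3 := Real.exp_pos δ
  nlinarith

lemma card_ix {δ : ℝ} (hδ : 0 < δ) {N : ℕ} (F : Finset ℕ) (hF : F ⊆ Icc 1 N) :
    ((F.image (ix δ)).card : ℝ) ≤ Real.log N / δ + 1 := by
  have h1 : F.image (ix δ) ⊆ range (⌊Real.log N / δ⌋₊ + 1) := by
    intro i hi
    rw [mem_image] at hi
    obtain ⟨m, hm, rfl⟩ := hi
    have hm' := mem_Icc.mp (hF hm)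
    rw [mem_range]
    have : ix δ m ≤ ⌊Real.log N / δ⌋₊ := by
      unfold ix
      apply Nat.floor_le_floor
      apply div_le_div_of_nonneg_right _ hδ.le
      exact Real.log_le_log (by exact_mod_cast hm'.1) (by exact_mod_cast hm'.2)
    omega
  have h2 := card_le_card h1
  rw [card_range] at h2
  have h3 : ((⌊Real.log N / δ⌋₊ : ℕ) : ℝ) ≤ Real.log N / δ :=
    Nat.floor_le (div_nonneg (Real.log_natCast_nonneg _) hδ.le)
  have h4 : ((F.image (ix δ)).card : ℝ) ≤ ((⌊Real.log N / δ⌋₊ + 1 : ℕ) : ℝ) := by exact_mod_cast h2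
  push_cast at h4
  linarith

open Classical in
lemma count_class {c : ℕ} (hc : ∀ (q X : ℕ) [NeZero q] (a : ℕ → ℂ) (ℓ T : ℝ), 1 ≤ X →
      1 + Real.log X ≤ ℓ → 0 < T → (∀ m ∈ Icc 1 X, ‖a m‖ ≤ ℓ * (m.divisors.card : ℝ)) →
      ((univ.filter (fun χ : DirichletCharacter ℂ q =>
        T < ‖∑ m ∈ Icc 1 X, a m * χ (m : ZMod q)‖)).card : ℝ) * T ^ 10 ≤
      ((X : ℝ) ^ 5 + q) * X ^ 5 * (5 * ℓ) ^ c)
    {q : ℕ} [NeZero q] {δ L P s : ℝ} {N i : ℕ} (hδ : 0 < δ) (hs : 0 < s)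
    (hP : 1 + Real.log N ≤ P) (hLP : L ≤ P) {a : ℕ → ℂ} (ha : ∀ m ∈ Icc 1 N, ‖a m‖ ≤ L * (m.divisors.card : ℝ))
    (hX : ⌊2 * gg δ i⌋₊ ≤ N) (hq : (q : ℝ) ≤ (4 * gg δ i) ^ 5) :
    ((univ.filter (fun χ : DirichletCharacter ℂ q => gg δ i * s < ‖AA δ a ⌊2 * gg δ i⌋₊ i χ‖)).card : ℝ) * s ^ 10 ≤
      33792 * (5 * P) ^ c := by
  have g0 := gg_pos δ i
  have g1 := gg_ge_one hδ i
  have hX1 : 1 ≤ ⌊2 * gg δ i⌋₊ := by
    rw [Nat.one_le_floor_iff]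
    linarith
  have hXc : ((⌊2 * gg δ i⌋₊ : ℕ) : ℝ) ≤ 2 * gg δ i := Nat.floor_le (by linarith)
  have hlogN := Real.log_natCast_nonneg N
  have hP0 : 0 ≤ P := by linarith
  have h := hc q ⌊2 * gg δ i⌋₊ (fun m => if ix δ m = i then a m else 0) P (gg δ i * s) hX1 (by
      refine le_trans ?_ hP
      have : Real.log (⌊2 * gg δ i⌋₊ : ℕ) ≤ Real.log N :=
        Real.log_le_log (by exact_mod_cast hX1) (by exact_mod_cast hX)
      linarith) (by positivity) (by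
      intro m hm
      rw [mem_Icc] at hm
      have h0 : (0 : ℝ) ≤ (m.divisors.card : ℝ) := Nat.cast_nonneg _
      split_ifs
      · exact (ha m (mem_Icc.mpr ⟨hm.1, hm.2.trans hX⟩)).trans (mul_le_mul_of_nonneg_right hLP h0)
      · rw [norm_zero]; positivity)
  have e : ∀ χ : DirichletCharacter ℂ q, AA δ a ⌊2 * gg δ i⌋₊ i χ =
      ∑ m ∈ Icc 1 ⌊2 * gg δ i⌋₊, (if ix δ m = i then a m else 0) * χ (m : ZMod q) := fun χ => rfl
  simp only [e]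
  set cd : ℝ := ((univ.filter (fun χ : DirichletCharacter ℂ q => gg δ i * s <
    ‖∑ m ∈ Icc 1 ⌊2 * gg δ i⌋₊, (if ix δ m = i then a m else 0) * χ (m : ZMod q)‖)).card : ℝ) with hcd
  have h2 : cd * s ^ 10 * gg δ i ^ 10 ≤ 33792 * (5 * P) ^ c * gg δ i ^ 10 := by
    calc cd * s ^ 10 * gg δ i ^ 10 = cd * (gg δ i * s) ^ 10 := by ring
      _ ≤ (((⌊2 * gg δ i⌋₊ : ℕ) : ℝ) ^ 5 + q) * ((⌊2 * gg δ i⌋₊ : ℕ) : ℝ) ^ 5 * (5 * P) ^ c := h
      _ ≤ ((2 * gg δ i) ^ 5 + (4 * gg δ i) ^ 5) * (2 * gg δ i) ^ 5 * (5 * P) ^ c := by gcongr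
      _ = 33792 * (5 * P) ^ c * gg δ i ^ 10 := by ring
  exact le_of_mul_le_mul_right h2 (by positivity)

theorem bilMaj (h1 : L2Stm) (h2 : CountStm) : BilMajStm := by
  classical
  obtain ⟨c, hc⟩ := h2
  intro A C ρ hρ
  obtain ⟨κ, hκ⟩ : ∃ κ : ℕ, κ = A + 2 * C + 4102 := ⟨_, rfl⟩
  obtain ⟨K, hK⟩ : ∃ K : ℕ, K = 2 * κ + 8 + A := ⟨_, rfl⟩
  obtain ⟨N1, hN1⟩ := ev_L' 100
  obtain ⟨N2, hN2⟩ := log_pow_small (2 * κ)
  refine ⟨2 * κ + 2 + 3 + 2 * c + 10 * K, max N1 N2, ?_⟩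
  intro N hN q _ hq a b ha hb hsupp
  have hL := hN1 N ((le_max_left _ _).trans hN)
  have hpow := hN2 N ((le_max_right _ _).trans hN)
  obtain ⟨L, hLdef⟩ : ∃ L : ℝ, L = Real.log N := ⟨_, rfl⟩
  rw [← hLdef] at hL hpow ha hb ⊢
  have hL0 : 0 < L := by linarith
  have hL1 : 1 ≤ L := by linarith
  have hN2' : 2 ≤ N := by
    by_contra hcon
    have : (N : ℝ) ≤ 1 := by exact_mod_cast (by omega : N ≤ 1)
    have h3 := Real.log_nonpos (Nat.cast_nonneg N) this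
    linarith
  have hN1' : 1 ≤ N := by omega
  have hNr : (1 : ℝ) ≤ N := by exact_mod_cast hN1'
  have hNr0 : (0 : ℝ) < N := by linarith
  -- parameters
  obtain ⟨t, ht⟩ : ∃ t : ℝ, t = (L ^ κ)⁻¹ := ⟨_, rfl⟩
  obtain ⟨s, hs⟩ : ∃ s : ℝ, s = (L ^ K)⁻¹ := ⟨_, rfl⟩
  have ht0 : 0 < t := by rw [ht]; positivity
  have hs0 : 0 < s := by rw [hs]; positivity
  have htL : t * L ^ κ = 1 := by rw [ht]; exact inv_mul_cancel₀ (by positivity)
  have hsL : s * L ^ K = 1 := by rw [hs]; exact inv_mul_cancel₀ (by positivity)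
  obtain ⟨δ, hδt⟩ : ∃ δ : ℝ, δ = t ^ 2 := ⟨_, rfl⟩
  have hδ0 : 0 < δ := by rw [hδt]; positivity
  have hδL : δ * L ^ (2 * κ) = 1 := by
    rw [hδt, show t ^ 2 * L ^ (2 * κ) = (t * L ^ κ) ^ 2 by ring, htL, one_pow]
  have hδ12 : δ ≤ 1 / 2 := by
    have e1 : L ≤ L ^ (2 * κ) := le_self_pow₀ hL1 (by omega)
    have e2 : δ * 100 ≤ 1 := by
      rw [← hδL]
      exact mul_le_mul_of_nonneg_left (by linarith) hδ0.le
    linarith
  have hNt : 1 ≤ N * t ^ 2 := by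
    rw [← hδt, ← hδL, mul_comm (N : ℝ) δ]
    apply mul_le_mul_of_nonneg_left _ hδ0.le
    have : 0 ≤ L ^ (2 * κ) := by positivity
    linarith
  -- powers of N
  have hqh : (q : ℝ) ≤ (N : ℝ) ^ (1 / 2 : ℝ) :=
    hq.trans (Real.rpow_le_rpow_of_exponent_le hNr (by linarith))
  have hhh : (N : ℝ) ^ (1 / 2 : ℝ) * (N : ℝ) ^ (1 / 2 : ℝ) = N := by
    rw [← Real.rpow_add hNr0]; norm_num
  have hh0 : 0 ≤ (N : ℝ) ^ (1 / 2 : ℝ) := Real.rpow_nonneg (Nat.cast_nonneg _) _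
  have hqN : (q : ℝ) ≤ N := by
    refine hqh.trans ?_
    have : 1 ≤ (N : ℝ) ^ (1 / 2 : ℝ) := Real.one_le_rpow hNr (by norm_num)
    nlinarith
  have h10 : ((N : ℝ) ^ (1 / 10 : ℝ)) ^ 5 = (N : ℝ) ^ (1 / 2 : ℝ) := by
    rw [← Real.rpow_natCast, ← Real.rpow_mul hNr0.le]
    norm_num
  -- the classes
  set F := (Icc 1 N).filter (fun m => a m ≠ 0) with hF
  set I := F.image (ix δ) with hI
  have hmem : ∀ i ∈ I, ∃ m ∈ Icc 1 N, a m ≠ 0 ∧ ix δ m = i := by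
    intro i hi
    rw [hI, mem_image] at hi
    obtain ⟨m, hm, rfl⟩ := hi
    rw [hF, mem_filter] at hm
    exact ⟨m, hm.1, hm.2, rfl⟩
  have hm2 : ∀ m ∈ Icc 1 N, (m : ℝ) < 2 * gg δ (ix δ m) := by
    intro m hm
    have h3 := lt_gg hδ0 (mem_Icc.mp hm).1
    rw [gg_succ] at h3
    have h4 := mul_le_mul_of_nonneg_left (exp_le_two hδ12) (gg_pos δ (ix δ m)).le
    linarith
  have hmh : ∀ m ∈ Icc 1 N, a m ≠ 0 → (m : ℝ) ≤ (N : ℝ) ^ (1 / 2 : ℝ) := by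
    intro m _ ham
    have h3 := (hsupp m ham).2
    have h4 : (m : ℝ) * m ≤ N := by exact_mod_cast h3
    rw [← hhh] at h4
    exact le_of_not_gt fun hcon => absurd h4 (not_le.mpr (mul_self_lt_mul_self hh0 hcon))
  have hXN : ∀ i ∈ I, ⌊2 * gg δ i⌋₊ ≤ N := by
    intro i hi
    obtain ⟨m, hm, ham, rfl⟩ := hmem i hi
    have h3 := gg_le hδ0 (mem_Icc.mp hm).1
    have h4 : ⌊2 * gg δ (ix δ m)⌋₊ ≤ 2 * m := by
      have : 2 * gg δ (ix δ m) ≤ ((2 * m : ℕ) : ℝ) := by push_cast; linarith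
      exact (Nat.floor_le_floor this).trans (by rw [Nat.floor_natCast])
    have h5 := (hsupp m ham).2
    have h6 := (mem_Icc.mp hm).1
    rcases Nat.lt_or_ge m 2 with h7 | h7
    · have : m = 1 := by omega
      subst this
      omega
    · nlinarith
  have hqI : ∀ i ∈ I, (q : ℝ) ≤ N / gg δ i := by
    intro i hi
    obtain ⟨m, hm, ham, rfl⟩ := hmem i hi
    rw [le_div_iff₀ (gg_pos _ _)]
    have h3 := (gg_le hδ0 (mem_Icc.mp hm).1).trans (hmh m hm ham)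
    have h4 := mul_le_mul hqh h3 (gg_pos _ _).le hh0
    rwa [hhh] at h4
  have hq5 : ∀ i ∈ I, (q : ℝ) ≤ (4 * gg δ i) ^ 5 := by
    intro i hi
    obtain ⟨m, hm, ham, rfl⟩ := hmem i hi
    have h3 := (hsupp m ham).1
    have h4 := hm2 m hm
    have h5 : (N : ℝ) ^ (1 / 10 : ℝ) ≤ 4 * gg δ (ix δ m) := by linarith
    refine hqh.trans ?_
    rw [← h10]
    exact pow_le_pow_left₀ (Real.rpow_nonneg (Nat.cast_nonneg _) _) h5 5
  have hIcard : (I.card : ℝ) ≤ L ^ (2 * κ + 2) := by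
    have h3 := card_ix hδ0 F (filter_subset _ _)
    rw [← hLdef] at h3
    refine h3.trans ?_
    have h4 : L / δ = L ^ (2 * κ + 1) := by
      rw [div_eq_iff hδ0.ne']
      calc L = L * (δ * L ^ (2 * κ)) := by rw [hδL, mul_one]
        _ = L ^ (2 * κ + 1) * δ := by ring
    rw [h4]
    have h5 : 1 ≤ L ^ (2 * κ + 1) := one_le_pow₀ hL1
    calc L ^ (2 * κ + 1) + 1 ≤ L ^ (2 * κ + 1) * 2 := by linarith
      _ ≤ L ^ (2 * κ + 1) * L := by gcongr; linarith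
      _ = L ^ (2 * κ + 2) := by ring
  obtain ⟨P, hPdef⟩ : ∃ P : ℝ, P = 1 + L := ⟨_, rfl⟩
  have hP : 1 + Real.log N ≤ P := by rw [hPdef, hLdef]
  have hLP : L ≤ P := by linarith
  have hP0 : 0 ≤ P := by linarith
  have hP2 : P ≤ L ^ 2 := by nlinarith
  have h5P : 5 * P ≤ L ^ 2 := by nlinarith
  -- the bad characters
  set bad : ℕ → Finset (DirichletCharacter ℂ q) := fun i =>
    univ.filter (fun χ : DirichletCharacter ℂ q => gg δ i * s < ‖AA δ a ⌊2 * gg δ i⌋₊ i χ‖) with hbad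
  refine ⟨I.biUnion bad, ?_, ?_⟩
  · have h3 : ∀ i ∈ I, ((bad i).card : ℝ) ≤ L ^ (3 + 2 * c + 10 * K) := by
      intro i hi
      have h4 := count_class hc hδ0 hs0 hP hLP ha (hXN i hi) (hq5 i hi)
      have h5 : (5 * P) ^ c ≤ L ^ (2 * c) := by
        rw [pow_mul]
        exact pow_le_pow_left₀ (by positivity) h5P c
      have h6 : (33792 : ℝ) ≤ L ^ 3 := by
        calc (33792 : ℝ) ≤ 100 ^ 3 := by norm_num
          _ ≤ L ^ 3 := pow_le_pow_left₀ (by norm_num) hL 3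
      have h7 : s ^ 10 * L ^ (10 * K) = 1 := by
        rw [show s ^ 10 * L ^ (10 * K) = (s * L ^ K) ^ 10 by ring, hsL, one_pow]
      calc ((bad i).card : ℝ) = ((bad i).card : ℝ) * s ^ 10 * L ^ (10 * K) := by
            rw [mul_assoc, h7, mul_one]
        _ ≤ (33792 * (5 * P) ^ c) * L ^ (10 * K) := by
            apply mul_le_mul_of_nonneg_right h4 (by positivity)
        _ ≤ (L ^ 3 * L ^ (2 * c)) * L ^ (10 * K) := by gcongr
        _ = L ^ (3 + 2 * c + 10 * K) := by ring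
    have h8 : ((I.biUnion bad).card : ℝ) ≤ ∑ i ∈ I, ((bad i).card : ℝ) := by
      exact_mod_cast card_biUnion_le
    refine (h8.trans (sum_le_sum h3)).trans ?_
    rw [sum_const, nsmul_eq_mul]
    calc (I.card : ℝ) * L ^ (3 + 2 * c + 10 * K) ≤ L ^ (2 * κ + 2) * L ^ (3 + 2 * c + 10 * K) := by gcongr
      _ = L ^ (2 * κ + 2 + 3 + 2 * c + 10 * K) := by ring
  · intro η hη S hS
    have hε : 7 * (δ * (N * |η|)) ≤ 7 * (t ^ 2 * L ^ C) := by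
      rw [hδt]
      have h3 : (N : ℝ) * |η| ≤ L ^ C := by
        rw [le_div_iff₀ hNr0] at hη
        linarith
      gcongr
    have hSI : ∀ χ ∈ S, ∀ i ∈ I, ‖AA δ a ⌊2 * gg δ i⌋₊ i χ‖ ≤ gg δ i * s := by
      intro χ hχ i hi
      by_contra hcon
      apply Finset.disjoint_left.mp hS hχ
      rw [mem_biUnion]
      exact ⟨i, hi, by rw [hbad]; simp only [mem_filter, mem_univ, true_and]; exact not_le.mp hcon⟩
    have hIm : ∀ m ∈ Icc 1 N, a m ≠ 0 → ix δ m ∈ I ∧ m ≤ ⌊2 * gg δ (ix δ m)⌋₊ := by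
      intro m hm ham
      refine ⟨mem_image_of_mem _ (mem_filter.mpr ⟨hm, ham⟩), Nat.le_floor (hm2 m hm).le⟩
    have hfin := combine h1 (η := η) hδ0 hδt ht0.le hNt hL0.le hs0.le hP hε hqN
      (a := a) (b := b) (fun m hm => ha m hm) (fun m hm => hb m hm) I (fun i => ⌊2 * gg δ i⌋₊) hIm hXN hqI S hSI
    refine hfin.trans ?_
    exact final_num hL hNr0.le htL hsL ht0.le hs0.le hκ hK hP0 hP2 (Nat.cast_nonneg _) hIcard rfl

end Pool.Agent.Y848.GJ.Bil
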